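import Mathlib
import Pool.Agent.Lib.MP_0da313_nt.CM.Main
import Pool.Agent.Lib.MP_0da313_nt.CM.Fin2

open Pool.Agent.Lib.MP_0da313_nt

namespace Pool.Agent.Results.MP_0da313_nt.ChenMaynardMembers

open Classical in
/-- A theorem of Chen and Maynard type for EVERY admissible family and EVERY large `n`. There is an
absolute constant `c₀ > 0`, and for all `m, d` there are `B` and `c > 0`, such that for every
admissible family of `m` polynomials of total degree at most `d`, every member `f_{k₀}` and every
set `I` of further members such that `f_{k₀}` and the `f_k`, `k ∈ I`, have total degree at most `1`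
and are pairwise different up to sign, and every large `n`, at least
`c * n * ∏_{p ≤ n} (1 - ω_n(p)/p)` of the pairs `x + y = n` of positive integers have the following
property: `|f_{k₀}(x,y)|` is prime, at least `max(1, c₀ * log |I|)` of the numbers `|f_k(x,y)|`,
`k ∈ I`, have at most two prime factors (if `I` is not empty), and for every `k`
`|f_k(x,y)| > 1`, all prime factors of `f_k(x,y)` are larger than `n^(1/B)` and there are at most
`B * d` of them, with multiplicity. Here `ω_n(p)` is the number of residues `r` modulo `p` such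
that `p` divides `∏_k f_k(r, n - r)`. -/
theorem result : ∃ c₀ : ℝ, 0 < c₀ ∧ ∀ m d : ℕ, 1 ≤ m → 1 ≤ d →
    ∃ (B : ℕ) (c : ℝ), 0 < c ∧ ∀ f : Fin m → MvPolynomial (Fin 2) ℤ,
      (∀ k, (f k).totalDegree ≤ d) → Admissible f →
      ∀ (k₀ : Fin m) (I : Finset (Fin m)), k₀ ∉ I →
      (∀ k ∈ insert k₀ I, (f k).totalDegree ≤ 1) →
      (∀ k ∈ insert k₀ I, ∀ l ∈ insert k₀ I, k ≠ l → f k ≠ f l ∧ f k ≠ - f l) →
      ∃ N : ℕ, ∀ n : ℕ, N ≤ n → c * (n * singV f n) ≤
        (Set.ncard {x : ℕ | 0 < x ∧ x < n ∧ (val (f k₀) x ((n : ℤ) - x)).natAbs.Prime ∧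
          c₀ * Real.log I.card ≤
            ((I.filter (fun k =>
              ArithmeticFunction.cardFactors (val (f k) x ((n : ℤ) - x)).natAbs ≤ 2)).card : ℝ) ∧
          (I.Nonempty → 1 ≤ (I.filter (fun k =>
              ArithmeticFunction.cardFactors (val (f k) x ((n : ℤ) - x)).natAbs ≤ 2)).card) ∧
          ∀ k, 1 < |val (f k) x ((n : ℤ) - x)| ∧
          (∀ p : ℕ, p.Prime → (p : ℤ) ∣ val (f k) x ((n : ℤ) - x) → n < p ^ B) ∧
          ArithmeticFunction.cardFactors (val (f k) x ((n : ℤ) - x)).natAbs ≤ B * d} : ℝ) :=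
  Pool.Agent.CM.final_all Pool.Agent.CM.F.h_final

end Pool.Agent.Results.MP_0da313_nt.ChenMaynardMembers
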