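import Mathlib
import Pool.Agent.Lib.MP_0da313_nt.MT.Dense

open Pool.Agent.Lib.MP_0da313_nt

namespace Pool.Agent.Results.MP_0da313_nt.DensePrimeMembers

/-- Many linear members simultaneously prime, all the other members almost prime, for EVERY
admissible family and EVERY large `n`. There is an absolute constant `c₀ > 0`, and for all `m, d`
there are `B` and `c > 0`, such that for every admissible family of `m` polynomials of total degree
at most `d`, every set `I` of at least two members of total degree at most `1`, no two of which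
agree up to sign, and every large `n`, at least `c * n * ∏_{p ≤ n} (1 - ω_n(p)/p)` of the
pairs `x + y = n` of positive integers have the following property: at least
`max(1, c₀ * log |I|)` of the values `|f_k(x,y)|`, `k ∈ I`, are prime, and for every `k` (in `I` or
not) `|f_k(x,y)| > 1`, all prime factors of `f_k(x,y)` are larger than `n^(1/B)` and there are at
most `B * d` of them, with multiplicity. Here `ω_n(p)` is the number of residues `r` modulo `p` such
that `p` divides `∏_k f_k(r, n - r)`. -/
theorem result : ∃ c₀ : ℝ, 0 < c₀ ∧ ∀ m d : ℕ, 1 ≤ m → 1 ≤ d →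
    ∃ (B : ℕ) (c : ℝ), 0 < c ∧ ∀ f : Fin m → MvPolynomial (Fin 2) ℤ,
      (∀ k, (f k).totalDegree ≤ d) → Admissible f →
      ∀ I : Finset (Fin m), 2 ≤ I.card → (∀ k ∈ I, (f k).totalDegree ≤ 1) →
      (∀ k ∈ I, ∀ l ∈ I, k ≠ l → f k ≠ f l ∧ f k ≠ - f l) →
      ∃ N : ℕ, ∀ n : ℕ, N ≤ n → c * (n * singV f n) ≤
        (Set.ncard {x : ℕ | 0 < x ∧ x < n ∧
          c₀ * Real.log I.card ≤
            ((I.filter (fun k => (val (f k) x ((n : ℤ) - x)).natAbs.Prime)).card : ℝ) ∧
          1 ≤ (I.filter (fun k => (val (f k) x ((n : ℤ) - x)).natAbs.Prime)).card ∧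
          ∀ k, 1 < |val (f k) x ((n : ℤ) - x)| ∧
          (∀ p : ℕ, p.Prime → (p : ℤ) ∣ val (f k) x ((n : ℤ) - x) → n < p ^ B) ∧
          ArithmeticFunction.cardFactors (val (f k) x ((n : ℤ) - x)).natAbs ≤ B * d} : ℝ) := by
  refine ⟨1 / 10 ^ 21, by norm_num, fun m d hm hd => ?_⟩
  obtain ⟨B, c, hc, h⟩ := Pool.Agent.MT.dense m d hm hd
  exact ⟨B, c, hc, fun f hdeg hf I hI hlin hne =>
    h f hdeg hf I (Finset.card_pos.1 (by omega)) hlin hne⟩

end Pool.Agent.Results.MP_0da313_nt.DensePrimeMembers
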