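import Mathlib
import Pool.Agent.Lib.MP_0da313_nt.TC.Final

open Pool.Agent.Lib.MP_0da313_nt

namespace Pool.Agent.Results.MP_0da313_nt.TwoClusters

open Classical in
/-- Two clusters of primes on almost every line `x + y = n`, for EVERY admissible family. There is an
absolute constant `c₀ > 0`, and for all `m, d` there are `B` and `c > 0`, such that for every
admissible family of `m` polynomials of total degree at most `d` and all nonempty sets `I`, `J` of
members of total degree at most `1` such that the members in `I` are pairwise different up to sign,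
so are those in `J`, and no member `f_i`, `i ∈ I`, is parallel to a member `f_j`, `j ∈ J` (the linear
parts are not proportional), the following holds for all `n ≤ N` with at most `N/(log N)^A`
exceptions (`A` arbitrary, `N` large): at least `c * n * ∏_{p ≤ n} (1 - ω_n(p)/p)` of the pairs
`x + y = n` of positive integers have at least `max(1, c₀ * log |I|)` primes among the
`|f_i(x,y)|`, `i ∈ I`, AND at least `max(1, c₀ * log |J|)` primes among the `|f_j(x,y)|`, `j ∈ J`,
while for every `k` `|f_k(x,y)| > 1`, all prime factors of `f_k(x,y)` are larger than `n^(1/B)` and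
there are at most `B * d` of them, with multiplicity. Here `ω_n(p)` is the number of residues `r`
modulo `p` such that `p` divides `∏_k f_k(r, n - r)`. -/
theorem result : ∃ c₀ : ℝ, 0 < c₀ ∧ ∀ m d : ℕ, 1 ≤ m → 1 ≤ d →
    ∃ (B : ℕ) (c : ℝ), 0 < c ∧ ∀ f : Fin m → MvPolynomial (Fin 2) ℤ,
      Admissible f → (∀ k, (f k).totalDegree ≤ d) →
      ∀ I J : Finset (Fin m), I.Nonempty → J.Nonempty →
      (∀ k ∈ I, (f k).totalDegree ≤ 1) → (∀ k ∈ J, (f k).totalDegree ≤ 1) →
      (∀ k ∈ I, ∀ l ∈ I, k ≠ l → f k ≠ f l ∧ f k ≠ - f l) →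
      (∀ k ∈ J, ∀ l ∈ J, k ≠ l → f k ≠ f l ∧ f k ≠ - f l) →
      (∀ i ∈ I, ∀ j ∈ J,
        (f i).coeff (Finsupp.single 0 1) * (f j).coeff (Finsupp.single 1 1) ≠
        (f j).coeff (Finsupp.single 0 1) * (f i).coeff (Finsupp.single 1 1)) →
      ∀ A : ℕ, ∀ᶠ N : ℕ in Filter.atTop,
        (((Finset.Icc 1 N).filter (fun n : ℕ => ¬ (c * (n * singV f n) ≤
          (Set.ncard {x : ℕ | 0 < x ∧ x < n ∧
            (c₀ * Real.log I.card ≤
              ((I.filter (fun k => (val (f k) x ((n : ℤ) - x)).natAbs.Prime)).card : ℝ) ∧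
              1 ≤ (I.filter (fun k => (val (f k) x ((n : ℤ) - x)).natAbs.Prime)).card) ∧
            (c₀ * Real.log J.card ≤
              ((J.filter (fun k => (val (f k) x ((n : ℤ) - x)).natAbs.Prime)).card : ℝ) ∧
              1 ≤ (J.filter (fun k => (val (f k) x ((n : ℤ) - x)).natAbs.Prime)).card) ∧
            ∀ k, 1 < |val (f k) x ((n : ℤ) - x)| ∧
            (∀ p : ℕ, p.Prime → (p : ℤ) ∣ val (f k) x ((n : ℤ) - x) → n < p ^ B) ∧
            ArithmeticFunction.cardFactors (val (f k) x ((n : ℤ) - x)).natAbs ≤ B * d} : ℝ)))).card : ℝ)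
        ≤ N / (Real.log N) ^ A :=
  Pool.Agent.TC.F.h_fin2 Pool.Agent.TC.h_EX

end Pool.Agent.Results.MP_0da313_nt.TwoClusters
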